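import Mathlib

/-!
# Marstrand-Mattila criterion for rectifiability: basic definitions and the slab estimate
-/

open MeasureTheory Metric Set Filter
open scoped ENNReal NNReal Topology

namespace H54Crit

abbrev Eu (k : ℕ) := EuclideanSpace ℝ (Fin k)

/-- bilateral flatness of `F` at `x`, scale `r`, parameter `η` -/
def BFlat {d : ℕ} (n : ℕ) (F : Set (Eu d)) (x : Eu d) (r η : ℝ) : Prop :=
  ∃ L : Eu n →ₗᵢ[ℝ] Eu d,
    (∀ y ∈ F, dist y x ≤ r → ∃ a, dist y (x + L a) ≤ η * r) ∧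
    (∀ a, ‖a‖ ≤ r → ∃ y ∈ F, dist y (x + L a) ≤ η * r)

/-- The slab of half width `w` around `a0` orthogonal to `e`, intersected with the ball of
radius `ρ`. -/
def slab {n : ℕ} (a0 e : Eu n) (w ρ : ℝ) : Set (Eu n) :=
  {a | |inner ℝ (a - a0) e| ≤ w ∧ ‖a - a0‖ ≤ ρ}

lemma isClosed_slab {n : ℕ} (a0 e : Eu n) (w ρ : ℝ) : IsClosed (slab a0 e w ρ) := by
  have h1 : IsClosed {a : Eu n | |inner ℝ (a - a0) e| ≤ w} :=
    isClosed_le (by fun_prop) continuous_const
  have h2 : IsClosed {a : Eu n | ‖a - a0‖ ≤ ρ} :=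
    isClosed_le (by fun_prop) continuous_const
  exact h1.inter h2

lemma volume_closedBall_eq {n : ℕ} (a : Eu n) {r : ℝ} (hr : 0 ≤ r) :
    volume (closedBall a r) = ENNReal.ofReal (r ^ n) * volume (closedBall (0 : Eu n) 1) := by
  rw [Measure.addHaar_closedBall' volume a hr]
  simp

lemma slab_volume {n : ℕ} (a0 e : Eu n) (he : ‖e‖ = 1) {w ρ : ℝ} (hw : 0 < w) (hρ : 0 < ρ) :
    volume (slab a0 e w ρ) ≤
      ENNReal.ofReal (3 * w / ρ * (2 * ρ) ^ n) * volume (closedBall (0 : Eu n) 1) := by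
  set J : ℕ := ⌊ρ / (3 * w)⌋₊ with hJ
  have hJ1 : (J : ℝ) ≤ ρ / (3 * w) := Nat.floor_le (by positivity)
  have hJ2 : ρ / (3 * w) < J + 1 := Nat.lt_floor_add_one _
  have hinner : inner ℝ e e = (1 : ℝ) := by
    rw [real_inner_self_eq_norm_sq, he]; norm_num
  -- the translates
  let S : ℕ → Set (Eu n) := fun j => (fun a => a + (3 * w * j) • e) '' slab a0 e w ρ
  have hSmeas : ∀ j, MeasurableSet (S j) := by
    intro j
    have : S j = (fun a => a - (3 * w * j) • e) ⁻¹' slab a0 e w ρ := by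
      ext b
      simp only [S, mem_image, mem_preimage]
      constructor
      · rintro ⟨a, ha, rfl⟩
        simpa using ha
      · intro hb
        exact ⟨_, hb, by simp⟩
    rw [this]
    exact ((isClosed_slab a0 e w ρ).preimage (by fun_prop)).measurableSet
  have hSvol : ∀ j, volume (S j) = volume (slab a0 e w ρ) := by
    intro j
    simp only [S]
    rw [show (fun a => a + (3 * w * (j : ℝ)) • e) '' slab a0 e w ρ
      = (fun a => (3 * w * (j : ℝ)) • e + a) '' slab a0 e w ρ by simp [add_comm]]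
    rw [image_add_left]
    exact measure_preimage_add _ _ _
  have hdisj : (Finset.range (J + 1) : Set ℕ).PairwiseDisjoint S := by
    intro i _ j _ hij
    rw [Function.onFun, Set.disjoint_left]
    rintro b ⟨a, ha, rfl⟩ ⟨a', ha', hb⟩
    have h1 : inner ℝ (a' + (3 * w * (j : ℝ)) • e) e = inner ℝ (a + (3 * w * (i : ℝ)) • e) e := by
      rw [show a' + (3 * w * (j : ℝ)) • e = a + (3 * w * (i : ℝ)) • e from hb]
    rw [inner_add_left, inner_add_left, real_inner_smul_left, real_inner_smul_left, hinner] at h1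
    have ha1 := ha.1
    have ha2 := ha'.1
    rw [inner_sub_left] at ha1 ha2
    rw [abs_le] at ha1 ha2
    have hij' : (1 : ℝ) ≤ |(i : ℝ) - j| := by
      have : (1 : ℤ) ≤ |(i : ℤ) - j| := Int.one_le_abs (by omega)
      exact_mod_cast this
    have h2 : |3 * w * ((i : ℝ) - j)| ≤ 2 * w := by
      rw [abs_le]; constructor <;> nlinarith
    rw [abs_mul, abs_of_pos (by positivity : (0:ℝ) < 3 * w)] at h2
    nlinarith
  have hsub : (⋃ j ∈ Finset.range (J + 1), S j) ⊆ closedBall a0 (2 * ρ) := by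
    intro b hb
    simp only [mem_iUnion] at hb
    obtain ⟨j, hj, a, ha, rfl⟩ := hb
    rw [mem_closedBall, dist_eq_norm]
    have hj' : (j : ℝ) ≤ J := by
      have := Finset.mem_range.1 hj
      exact_mod_cast (by omega : j ≤ J)
    calc ‖a + (3 * w * (j : ℝ)) • e - a0‖ = ‖(a - a0) + (3 * w * (j : ℝ)) • e‖ := by congr 1; abel
      _ ≤ ‖a - a0‖ + ‖(3 * w * (j : ℝ)) • e‖ := norm_add_le _ _
      _ ≤ ρ + 3 * w * (j : ℝ) := by
        gcongr
        · exact ha.2
        · rw [norm_smul, he, mul_one, Real.norm_of_nonneg (by positivity)]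
      _ ≤ ρ + 3 * w * (ρ / (3 * w)) := by gcongr; exact hj'.trans hJ1
      _ = 2 * ρ := by field_simp; ring
  have hsum : (J + 1 : ℕ) * volume (slab a0 e w ρ) ≤ volume (closedBall a0 (2 * ρ)) := by
    calc ((J + 1 : ℕ) : ℝ≥0∞) * volume (slab a0 e w ρ)
        = ∑ j ∈ Finset.range (J + 1), volume (S j) := by
          rw [Finset.sum_congr rfl (fun j _ => hSvol j), Finset.sum_const, Finset.card_range,
            nsmul_eq_mul]
      _ = volume (⋃ j ∈ Finset.range (J + 1), S j) :=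
          (measure_biUnion_finset hdisj (fun j _ => hSmeas j)).symm
      _ ≤ _ := measure_mono hsub
  rw [volume_closedBall_eq a0 (by positivity)] at hsum
  have hkey : (1 : ℝ≥0∞) ≤ ENNReal.ofReal (3 * w / ρ) * ((J + 1 : ℕ) : ℝ≥0∞) := by
    rw [← ENNReal.ofReal_natCast (J + 1), ← ENNReal.ofReal_mul (by positivity)]
    rw [ENNReal.one_le_ofReal]
    push_cast
    calc (1 : ℝ) = 3 * w / ρ * (ρ / (3 * w)) := by field_simp
      _ ≤ 3 * w / ρ * (J + 1) := by gcongr
  calc volume (slab a0 e w ρ) = 1 * volume (slab a0 e w ρ) := (one_mul _).symm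
    _ ≤ (ENNReal.ofReal (3 * w / ρ) * ((J + 1 : ℕ) : ℝ≥0∞)) * volume (slab a0 e w ρ) := by gcongr
    _ = ENNReal.ofReal (3 * w / ρ) * (((J + 1 : ℕ) : ℝ≥0∞) * volume (slab a0 e w ρ)) := by ring
    _ ≤ ENNReal.ofReal (3 * w / ρ) *
        (ENNReal.ofReal ((2 * ρ) ^ n) * volume (closedBall (0 : Eu n) 1)) := by gcongr
    _ = _ := by
      rw [← mul_assoc, ← ENNReal.ofReal_mul (by positivity)]

end H54Crit
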