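import Pool.Agent.H54Crit.Dual

/-!
# The best countable family of Lipschitz images
-/

open MeasureTheory Metric Set Filter
open scoped ENNReal NNReal Topology

namespace H54Crit

/-- `g` is Lipschitz -/
def IsLip {n d : ℕ} (g : Eu n → Eu d) : Prop := ∃ K : ℝ≥0, LipschitzWith K g

lemma IsLip.measurableSet_range {n d : ℕ} {g : Eu n → Eu d} (hg : IsLip g) :
    MeasurableSet (range g) := by
  obtain ⟨K, hK⟩ := hg
  have h : IsSigmaCompact (range g) := isSigmaCompact_range hK.continuous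
  obtain ⟨S, hS, hS'⟩ := h
  rw [← hS']
  exact MeasurableSet.iUnion (fun i => (hS i).measurableSet)

/-- existence of a countable family of Lipschitz images which is maximal in measure: its
complement meets every Lipschitz image in a null set. -/
lemma exists_best {n d : ℕ} (μ : Measure (Eu d)) [IsFiniteMeasure μ] (F : Set (Eu d))
    (hF : MeasurableSet F) :
    ∃ g : ℕ → (Eu n → Eu d), (∀ i, IsLip (g i)) ∧
      ∀ h : Eu n → Eu d, IsLip h → μ ((F \ ⋃ i, range (g i)) ∩ range h) = 0 := by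
  classical
  let I := {g : ℕ → (Eu n → Eu d) // ∀ i, IsLip (g i)}
  have : Nonempty I := ⟨⟨fun _ _ => 0, fun _ => ⟨0, LipschitzWith.const 0⟩⟩⟩
  let m : I → ℝ≥0∞ := fun g => μ (F ∩ ⋃ i, range (g.1 i))
  obtain ⟨u, _, hu2, hu3⟩ := exists_seq_tendsto_sSup (S := range m) (range_nonempty m)
    (OrderTop.bddAbove _)
  choose v hv using hu3
  -- the union family
  let w : ℕ → (Eu n → Eu d) := fun k => (v (Nat.unpair k).1).1 (Nat.unpair k).2
  have hw : ∀ i, IsLip (w i) := fun i => (v (Nat.unpair i).1).2 _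
  have hsub : ∀ j, (⋃ i, range ((v j).1 i)) ⊆ ⋃ i, range (w i) := by
    intro j
    refine iUnion_subset (fun i => ?_)
    have : (v j).1 i = w (Nat.pair j i) := by simp [w]
    rw [this]
    exact subset_iUnion (fun i => range (w i)) _
  have hmax : ∀ g : I, m g ≤ m ⟨w, hw⟩ := by
    intro g
    have h1 : m g ≤ sSup (range m) := le_sSup (mem_range_self g)
    refine h1.trans ?_
    refine le_of_tendsto hu2 (Eventually.of_forall (fun j => ?_))
    rw [← hv j]
    exact measure_mono (inter_subset_inter_right _ (hsub j))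
  refine ⟨w, hw, fun h hh => ?_⟩
  by_contra hcon
  let w' : ℕ → (Eu n → Eu d) := fun k => Nat.casesOn k h (fun k => w k)
  have hw' : ∀ i, IsLip (w' i) := by
    intro i
    cases i with
    | zero => exact hh
    | succ i => exact hw i
  have h1 := hmax ⟨w', hw'⟩
  have h2 : (F ∩ ⋃ i, range (w i)) ∪ ((F \ ⋃ i, range (w i)) ∩ range h) ⊆
      F ∩ ⋃ i, range (w' i) := by
    rintro x (⟨hx1, hx2⟩ | ⟨⟨hx1, _⟩, hx2⟩)
    · refine ⟨hx1, ?_⟩
      obtain ⟨i, hi⟩ := mem_iUnion.1 hx2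
      exact mem_iUnion.2 ⟨i + 1, hi⟩
    · exact ⟨hx1, mem_iUnion.2 ⟨0, hx2⟩⟩
  have hmeas : MeasurableSet ((F \ ⋃ i, range (w i)) ∩ range h) :=
    (hF.diff (MeasurableSet.iUnion (fun i => (hw i).measurableSet_range))).inter
      hh.measurableSet_range
  have h3 : μ (F ∩ ⋃ i, range (w i)) + μ ((F \ ⋃ i, range (w i)) ∩ range h) ≤
      μ (F ∩ ⋃ i, range (w i)) := by
    rw [← measure_union _ hmeas]
    · exact (measure_mono h2).trans h1
    · rw [Set.disjoint_left]
      rintro x ⟨_, hx⟩ ⟨⟨_, hx'⟩, _⟩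
      exact hx' hx
  have h4 : μ (F ∩ ⋃ i, range (w i)) ≠ ∞ := measure_ne_top _ _
  have h5 : μ ((F \ ⋃ i, range (w i)) ∩ range h) ≤ 0 := by
    have := ENNReal.le_sub_of_add_le_left h4 h3
    simpa using this
  exact hcon (le_antisymm h5 (zero_le))

/-- points of `U` near which `U` has no almost vertical chord form a null set -/
lemma null_of_noCone {n d : ℕ} (μ : Measure (Eu d)) (U : Set (Eu d))
    (hU : ∀ h : Eu n → Eu d, IsLip h → μ (U ∩ range h) = 0)
    (P : Eu d →L[ℝ] Eu n) {σ : ℝ} (hσ : 0 < σ) :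
    μ {x ∈ U | ∃ t > 0, ∀ y ∈ U, dist x y < t → σ * dist x y ≤ ‖P (x - y)‖} = 0 := by
  -- countable cover
  obtain ⟨D, hDc, hDd⟩ := TopologicalSpace.exists_countable_dense (Eu d)
  let A : ℕ → Eu d → Set (Eu d) := fun m c =>
    {x ∈ U | (∀ y ∈ U, dist x y < 1 / (m + 1 : ℝ) → σ * dist x y ≤ ‖P (x - y)‖) ∧
      dist x c < 1 / (2 * (m + 1 : ℝ))}
  have hA : ∀ m c, μ (A m c) = 0 := by
    intro m c
    obtain ⟨g, hg, hAg⟩ := lip_image_of_lower P hσ (A m c) (by
      rintro x ⟨hx1, hx2, hx3⟩ y ⟨hy1, hy2, hy3⟩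
      refine hx2 y hy1 ?_
      calc dist x y ≤ dist x c + dist y c := dist_triangle_right _ _ _
        _ < 1 / (2 * (m + 1 : ℝ)) + 1 / (2 * (m + 1 : ℝ)) := by gcongr
        _ = 1 / (m + 1 : ℝ) := by field_simp; ring)
    refine measure_mono_null ?_ (hU g hg)
    exact fun x hx => ⟨hx.1, hAg hx⟩
  have hcov : {x ∈ U | ∃ t > 0, ∀ y ∈ U, dist x y < t → σ * dist x y ≤ ‖P (x - y)‖} ⊆
      ⋃ m : ℕ, ⋃ c ∈ D, A m c := by
    rintro x ⟨hx, t, ht, hxt⟩
    obtain ⟨m, hm⟩ := exists_nat_one_div_lt ht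
    obtain ⟨c, hc, hcx⟩ := hDd.exists_dist_lt x (show (0 : ℝ) < 1 / (2 * (m + 1 : ℝ)) by positivity)
    simp only [mem_iUnion]
    exact ⟨m, c, hc, hx, fun y hy hxy => hxt y hy (hxy.trans hm), hcx⟩
  refine measure_mono_null hcov ?_
  rw [measure_iUnion_null_iff]
  intro m
  rw [measure_biUnion_null_iff hDc]
  exact fun c _ => hA m c

end H54Crit
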