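import Pool.Agent.H54Crit.Best

/-!
# The projection of the unrectifiable part is small
-/

open MeasureTheory Metric Set Filter
open scoped ENNReal NNReal Topology

namespace H54Crit

/-- the standing hypotheses -/
structure Hyp {d : ℕ} (n : ℕ) (μ : Measure (Eu d)) (F : Set (Eu d)) (c r1 : ℝ) : Prop where
  hn : 0 < n
  hc : 0 < c
  hr1 : 0 < r1
  hF : IsClosed F
  hH : ∀ A ⊆ F, μH[(n : ℝ)] A ≤ μ A
  hlow : ∀ x ∈ F, ∀ r, 0 < r → r ≤ r1 → ENNReal.ofReal (c * r ^ n) ≤ μ (closedBall x r)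

/-- the measure of the unit ball -/
noncomputable def om (n : ℕ) : ℝ≥0∞ := volume (closedBall (0 : Eu n) 1)

lemma om_lt_top (n : ℕ) : om n < ∞ := measure_closedBall_lt_top

/-- one steep chord makes the projection small -/
lemma vol_proj_of_chord {n d : ℕ} (L : Eu n →ₗᵢ[ℝ] Eu d) (F : Set (Eu d)) (x y : Eu d)
    {η σ r : ℝ} (hr : 0 < r) (hη : 0 < η) (hη1 : η ≤ 1 / 2) (hσ : 0 < σ)
    (hflat : BFlat n F x r η) (hy : y ∈ F) (hxy : dist x y = r)
    (hP : ‖adj L (x - y)‖ < σ * r) :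
    volume (adj L '' (F ∩ closedBall x r)) ≤
      ENNReal.ofReal (15 * (σ + η) * 2 ^ n * r ^ n) * om n := by
  obtain ⟨L', h1, -⟩ := hflat
  obtain ⟨a, ha⟩ := h1 y hy (by rw [dist_comm, hxy])
  have hna : r / 2 ≤ ‖a‖ := by
    have : r ≤ η * r + ‖a‖ := by
      calc r = dist x y := hxy.symm
        _ ≤ dist x (x + L' a) + dist (x + L' a) y := dist_triangle _ _ _
        _ ≤ ‖a‖ + η * r := by
            gcongr
            · rw [dist_eq_norm, sub_add_cancel_left, norm_neg, L'.norm_map]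
            · rw [dist_comm]; exact ha
        _ = η * r + ‖a‖ := add_comm _ _
    nlinarith
  have hT : ‖(adj L ∘L L'.toContinuousLinearMap) a‖ < (2 * (σ + η)) * ‖a‖ := by
    have h2 : (adj L ∘L L'.toContinuousLinearMap) a
        = -(adj L (x - y)) - adj L (y - (x + L' a)) := by
      simp only [ContinuousLinearMap.comp_apply, map_sub, map_add]
      simp only [LinearIsometry.coe_toContinuousLinearMap]
      abel
    rw [h2]
    calc ‖-(adj L (x - y)) - adj L (y - (x + L' a))‖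
        ≤ ‖adj L (x - y)‖ + ‖adj L (y - (x + L' a))‖ := by
          refine (norm_sub_le _ _).trans ?_
          rw [norm_neg]
      _ < σ * r + η * r := by
          refine add_lt_add_of_lt_of_le hP ((norm_adj_le L _).trans ?_)
          rw [← dist_eq_norm]; exact ha
      _ = (2 * (σ + η)) * (r / 2) := by ring
      _ ≤ (2 * (σ + η)) * ‖a‖ := by gcongr
  obtain ⟨e, he, heτ⟩ := exists_dual_dir _ (by positivity) a hT
  have hincl := slab_incl L L' F x hr.le (by linarith) (by positivity) h1 e he heτ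
  refine (measure_mono hincl).trans ?_
  refine (slab_volume _ e he (by positivity) hr).trans ?_
  rw [om]
  refine mul_le_mul' (ENNReal.ofReal_le_ofReal ?_) le_rfl
  rw [mul_pow]
  have : 3 * ((2 * (2 * (σ + η)) + η) * r) / r = 3 * (2 * (2 * (σ + η)) + η) := by
    field_simp
  rw [this]
  have h5 : 3 * (2 * (2 * (σ + η)) + η) ≤ 15 * (σ + η) := by nlinarith
  calc 3 * (2 * (2 * (σ + η)) + η) * (2 ^ n * r ^ n)
      ≤ 15 * (σ + η) * (2 ^ n * r ^ n) := by gcongr
    _ = _ := by ring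

lemma vol_proj_unrect {n d : ℕ} (μ : Measure (Eu d)) [IsFiniteMeasure μ] (F F1 : Set (Eu d))
    {c r1 η σ : ℝ} (H : Hyp n μ F c r1) (hF1 : F1 ⊆ F)
    (hη : 0 < η) (hη1 : η ≤ 1 / 2) (hσ : 0 < σ)
    (hflat : ∀ x ∈ F1, ∀ r, 0 < r → r < r1 → BFlat n F x r η)
    (hU : ∀ h : Eu n → Eu d, IsLip h → μ (F1 ∩ range h) = 0)
    (L : Eu n →ₗᵢ[ℝ] Eu d) (x0 : Eu d) {r0 : ℝ} (hr0 : 0 < r0) :
    volume (adj L '' (F1 ∩ closedBall x0 r0)) ≤
      ENNReal.ofReal (15 * (σ + η) * 2 ^ n / c) * om n * μ (closedBall x0 (2 * r0)) := by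
  set P := adj L
  have hc := H.hc
  have hr1 := H.hr1
  let s : Set (Eu d) := {x ∈ F1 ∩ closedBall x0 r0 |
    ∀ t > 0, ∃ y ∈ F1, dist x y < t ∧ ‖P (x - y)‖ < σ * dist x y}
  let f : Eu d → Set ℝ := fun x => {r | ∃ y ∈ F1, dist x y = r ∧ ‖P (x - y)‖ < σ * r}
  obtain ⟨t, r, htc, hts, hr, hcov, hdisj⟩ :=
    Besicovitch.exists_disjoint_closedBall_covering_ae μ f s (by
      intro x hx δ hδ
      obtain ⟨y, hy, hxy, hP⟩ := hx.2 δ hδ
      refine ⟨dist x y, ⟨y, hy, rfl, hP⟩, ?_, hxy⟩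
      by_contra hcon
      push Not at hcon
      have : ‖P (x - y)‖ < 0 := hP.trans_le (mul_nonpos_of_nonneg_of_nonpos hσ.le hcon)
      exact absurd this (not_lt.2 (norm_nonneg _)))
      (fun _ => min r1 r0) (fun x _ => lt_min hr1 hr0)
  -- the good points are null
  have hgood : μH[(n : ℝ)] ((F1 ∩ closedBall x0 r0) \ s) = 0 := by
    refine le_antisymm ?_ (zero_le)
    refine (H.hH _ (fun x hx => hF1 hx.1.1)).trans ?_
    refine (measure_mono ?_).trans (null_of_noCone μ F1 hU P hσ).le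
    rintro x ⟨hx1, hx2⟩
    refine ⟨hx1.1, ?_⟩
    have : ¬ ∀ t > 0, ∃ y ∈ F1, dist x y < t ∧ ‖P (x - y)‖ < σ * dist x y := fun h => hx2 ⟨hx1, h⟩
    push Not at this
    exact this
  have hsub : P '' (F1 ∩ closedBall x0 r0) ⊆ (P '' ((F1 ∩ closedBall x0 r0) \ s)) ∪
      ((P '' (s \ ⋃ x ∈ t, closedBall x (r x))) ∪ ⋃ x ∈ t, P '' (F ∩ closedBall x (r x))) := by
    rintro _ ⟨x, hx, rfl⟩
    by_cases hxs : x ∈ s
    · right
      by_cases hxt : x ∈ ⋃ x ∈ t, closedBall x (r x)
      · right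
        simp only [mem_iUnion] at hxt ⊢
        obtain ⟨i, hi, hxi⟩ := hxt
        exact ⟨i, hi, x, ⟨hF1 hx.1, hxi⟩, rfl⟩
      · left
        exact ⟨x, ⟨hxs, hxt⟩, rfl⟩
    · left
      exact ⟨x, ⟨hx, hxs⟩, rfl⟩
  have h1 : volume (P '' ((F1 ∩ closedBall x0 r0) \ s)) = 0 :=
    le_antisymm ((volume_image_adj_le L _).trans hgood.le) (zero_le)
  have h2 : volume (P '' (s \ ⋃ x ∈ t, closedBall x (r x))) = 0 := by
    refine le_antisymm ((volume_image_adj_le L _).trans ?_) (zero_le)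
    exact (H.hH _ (fun x hx => hF1 hx.1.1.1)).trans hcov.le
  have h3 : volume (⋃ x ∈ t, P '' (F ∩ closedBall x (r x))) ≤
      ENNReal.ofReal (15 * (σ + η) * 2 ^ n / c) * om n * μ (closedBall x0 (2 * r0)) := by
    calc volume (⋃ x ∈ t, P '' (F ∩ closedBall x (r x)))
        ≤ ∑' x : t, volume (P '' (F ∩ closedBall (x : Eu d) (r x))) :=
          measure_biUnion_le _ htc _
      _ ≤ ∑' x : t, ENNReal.ofReal (15 * (σ + η) * 2 ^ n / c) * om n *
            μ (closedBall (x : Eu d) (r x)) := by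
          refine ENNReal.tsum_le_tsum (fun x => ?_)
          obtain ⟨⟨y, hy, hxy, hP⟩, hr3, hr4⟩ := hr x x.2
          have hx1 : (x : Eu d) ∈ F1 := (hts x.2).1.1
          have hrr1 : r x < r1 := hr4.trans_le (min_le_left _ _)
          refine (vol_proj_of_chord L F x y hr3 hη hη1 hσ (hflat x hx1 _ hr3 hrr1)
            (hF1 hy) hxy hP).trans ?_
          have h5 := H.hlow x (hF1 hx1) (r x) hr3 hrr1.le
          calc ENNReal.ofReal (15 * (σ + η) * 2 ^ n * r x ^ n) * om n
              = ENNReal.ofReal (15 * (σ + η) * 2 ^ n / c) * om n *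
                ENNReal.ofReal (c * r x ^ n) := by
                rw [mul_right_comm (ENNReal.ofReal (15 * (σ + η) * 2 ^ n / c)) (om n),
                  ← ENNReal.ofReal_mul (by positivity)]
                congr 2
                field_simp
            _ ≤ _ := by gcongr
      _ = ENNReal.ofReal (15 * (σ + η) * 2 ^ n / c) * om n *
            ∑' x : t, μ (closedBall (x : Eu d) (r x)) := ENNReal.tsum_mul_left
      _ = ENNReal.ofReal (15 * (σ + η) * 2 ^ n / c) * om n *
            μ (⋃ x ∈ t, closedBall x (r x)) := by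
          rw [measure_biUnion htc hdisj (fun x _ => isClosed_closedBall.measurableSet)]
      _ ≤ _ := by
          gcongr
          refine iUnion₂_subset (fun x hx => ?_)
          refine closedBall_subset_closedBall' ?_
          have hx1 := (hts hx).1.2
          rw [mem_closedBall] at hx1
          have hr4 := (hr x hx).2.2
          have : r x < r0 := hr4.trans_le (min_le_right _ _)
          linarith
  calc volume (P '' (F1 ∩ closedBall x0 r0)) ≤ _ := measure_mono hsub
    _ ≤ volume (P '' ((F1 ∩ closedBall x0 r0) \ s)) +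
        (volume (P '' (s \ ⋃ x ∈ t, closedBall x (r x))) +
          volume (⋃ x ∈ t, P '' (F ∩ closedBall x (r x)))) :=
        (measure_union_le _ _).trans (by gcongr; exact measure_union_le _ _)
    _ ≤ _ := by rw [h1, h2, zero_add, zero_add]; exact h3

end H54Crit
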