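import Pool.Agent.H54Crit.Proj

/-!
# The dual direction lemma and slab inclusion
-/

open MeasureTheory Metric Set Filter
open scoped ENNReal NNReal Topology

namespace H54Crit

/-- If the adjoint of `T` is bounded below by `τ` on unit vectors then `T` is onto with a
bounded right inverse. -/
lemma onto_of_adjoint_lower {n : ℕ} (T : Eu n →L[ℝ] Eu n) {τ : ℝ} (hτ : 0 < τ)
    (h : ∀ e : Eu n, ‖e‖ = 1 → τ ≤ ‖ContinuousLinearMap.adjoint T e‖) :
    (∀ v, τ * ‖v‖ ≤ ‖T v‖) ∧ ∀ q, ∃ v, T v = q := by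
  have h1 : ∀ e : Eu n, τ * ‖e‖ ≤ ‖ContinuousLinearMap.adjoint T e‖ := by
    intro e
    rcases eq_or_ne e 0 with rfl | he
    · simp
    · have hn : 0 < ‖e‖ := norm_pos_iff.2 he
      have h2 := h (‖e‖⁻¹ • e) (by rw [norm_smul, norm_inv, norm_norm, inv_mul_cancel₀ hn.ne'])
      rw [map_smul, norm_smul, norm_inv, norm_norm, inv_mul_eq_div, le_div_iff₀ hn] at h2
      exact h2
  have hinj : Function.Injective (ContinuousLinearMap.adjoint T) := by
    rw [injective_iff_map_eq_zero]
    intro e he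
    have := h1 e
    rw [he, norm_zero] at this
    have h3 : ‖e‖ ≤ 0 := by
      by_contra hcon
      push Not at hcon
      have := mul_pos hτ hcon
      linarith
    exact norm_le_zero_iff.1 h3
  have hsurj : Function.Surjective (ContinuousLinearMap.adjoint T) :=
    LinearMap.surjective_of_injective (f := (ContinuousLinearMap.adjoint T).toLinearMap) hinj
  have hlow : ∀ v, τ * ‖v‖ ≤ ‖T v‖ := by
    intro v
    obtain ⟨e, he⟩ := hsurj v
    have h2 : ‖v‖ ^ 2 = inner ℝ e (T v) := by
      rw [← real_inner_self_eq_norm_sq]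
      nth_rewrite 1 [← he]
      rw [ContinuousLinearMap.adjoint_inner_left]
    have h3 := real_inner_le_norm e (T v)
    have h4 := h1 e
    rw [he] at h4
    rcases (norm_nonneg v).eq_or_lt with h | h
    · rw [← h]; simp
    · have h5 : τ * ‖v‖ ^ 2 ≤ ‖v‖ * ‖T v‖ := by
        rw [h2]
        calc τ * inner ℝ e (T v) ≤ τ * (‖e‖ * ‖T v‖) := by gcongr
          _ = (τ * ‖e‖) * ‖T v‖ := by ring
          _ ≤ ‖v‖ * ‖T v‖ := by gcongr
      nlinarith
  refine ⟨hlow, ?_⟩
  have hinjT : Function.Injective T := by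
    rw [injective_iff_map_eq_zero]
    intro e he
    have := hlow e
    rw [he, norm_zero] at this
    have h3 : ‖e‖ ≤ 0 := by
      by_contra hcon
      push Not at hcon
      have := mul_pos hτ hcon
      linarith
    exact norm_le_zero_iff.1 h3
  exact LinearMap.surjective_of_injective (f := T.toLinearMap) hinjT

/-- slab inclusion: if the frame `L'` at `x` is `τ`-contracted by `P = adj L` dually in
direction `e` then the part of `F` near `x` projects into a slab. -/
lemma slab_incl {n d : ℕ} (L L' : Eu n →ₗᵢ[ℝ] Eu d) (F : Set (Eu d)) (x : Eu d) {r η τ : ℝ}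
    (hr : 0 ≤ r) (hη1 : η ≤ 1) (hτ : 0 ≤ τ)
    (hflat : ∀ y ∈ F, dist y x ≤ r → ∃ a, dist y (x + L' a) ≤ η * r)
    (e : Eu n) (he : ‖e‖ = 1)
    (heτ : ‖ContinuousLinearMap.adjoint (adj L ∘L L'.toContinuousLinearMap) e‖ ≤ τ) :
    adj L '' (F ∩ closedBall x r) ⊆ slab (adj L x) e ((2 * τ + η) * r) r := by
  rintro _ ⟨y, ⟨hyF, hyx⟩, rfl⟩
  rw [mem_closedBall] at hyx
  obtain ⟨a, ha⟩ := hflat y hyF hyx
  constructor
  · have h1 : adj L y - adj L x = (adj L ∘L L'.toContinuousLinearMap) a
        + adj L (y - (x + L' a)) := by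
      simp only [ContinuousLinearMap.comp_apply, map_sub, map_add]
      simp only [LinearIsometry.coe_toContinuousLinearMap]
      abel
    rw [h1, inner_add_left]
    have hna : ‖a‖ ≤ 2 * r := by
      calc ‖a‖ = ‖L' a‖ := (L'.norm_map a).symm
        _ = dist (x + L' a) x := by rw [dist_eq_norm]; congr 1; abel
        _ ≤ dist (x + L' a) y + dist y x := dist_triangle _ _ _
        _ ≤ η * r + r := by rw [dist_comm (x + L' a) y]; gcongr
        _ ≤ 1 * r + r := by gcongr
        _ = 2 * r := by ring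
    have h2 : |inner ℝ ((adj L ∘L L'.toContinuousLinearMap) a) e| ≤ 2 * τ * r := by
      rw [← ContinuousLinearMap.adjoint_inner_right]
      calc |inner ℝ a (ContinuousLinearMap.adjoint (adj L ∘L L'.toContinuousLinearMap) e)|
          ≤ ‖a‖ * ‖ContinuousLinearMap.adjoint (adj L ∘L L'.toContinuousLinearMap) e‖ :=
            abs_real_inner_le_norm _ _
        _ ≤ (2 * r) * τ := by gcongr
        _ = 2 * τ * r := by ring
    have h3 : |inner ℝ (adj L (y - (x + L' a))) e| ≤ η * r := by
      calc |inner ℝ (adj L (y - (x + L' a))) e| ≤ ‖adj L (y - (x + L' a))‖ * ‖e‖ :=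
            abs_real_inner_le_norm _ _
        _ ≤ ‖y - (x + L' a)‖ * 1 := by
            rw [he]; gcongr; exact norm_adj_le L _
        _ ≤ η * r := by rw [mul_one, ← dist_eq_norm]; exact ha
    calc |inner ℝ ((adj L ∘L L'.toContinuousLinearMap) a) e
          + inner ℝ (adj L (y - (x + L' a))) e| ≤ _ := abs_add_le _ _
      _ ≤ 2 * τ * r + η * r := by gcongr
      _ = (2 * τ + η) * r := by ring
  · calc ‖adj L y - adj L x‖ = ‖adj L (y - x)‖ := by rw [map_sub]
      _ ≤ ‖y - x‖ := norm_adj_le L _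
      _ ≤ r := by rw [← dist_eq_norm]; exact hyx

/-- existence of a contracted dual direction from a contracted chord. -/
lemma exists_dual_dir {n : ℕ} (T : Eu n →L[ℝ] Eu n) {τ : ℝ} (hτ : 0 < τ) (v : Eu n)
    (hv : ‖T v‖ < τ * ‖v‖) :
    ∃ e : Eu n, ‖e‖ = 1 ∧ ‖ContinuousLinearMap.adjoint T e‖ ≤ τ := by
  by_contra hcon
  push Not at hcon
  have h1 := (onto_of_adjoint_lower T hτ (fun e he => (hcon e he).le)).1 v
  linarith

end H54Crit
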