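import Pool.Agent.H54Crit.Cone

/-!
# Holes far from the good set
-/

open MeasureTheory Metric Set Filter
open scoped ENNReal NNReal Topology

namespace H54Crit

lemma countable_of_disjoint_balls {ι : Type*} {d : ℕ} (u : Set ι) (x : ι → Eu d) (r : ι → ℝ)
    (hr : ∀ i ∈ u, 0 < r i) (hu : u.PairwiseDisjoint fun i => closedBall (x i) (r i)) :
    u.Countable := by
  refine hu.countable_of_nonempty_interior (fun i hi => ?_)
  exact ⟨x i, ball_subset_interior_closedBall (mem_ball_self (hr i hi))⟩

lemma vol_holeA {n d : ℕ} (μ : Measure (Eu d)) [IsFiniteMeasure μ] (F F1 : Set (Eu d))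
    {c r1 θ R : ℝ} (H : Hyp n μ F c r1) (hF1m : MeasurableSet F1)
    (hθ : 0 < θ) (hθ1 : θ ≤ 1)
    (L : Eu n →ₗᵢ[ℝ] Eu d) (W : Set (Eu d))
    (S : Set (Eu n)) (ρ : Eu n → ℝ) (y : Eu n → Eu d)
    (hρ0 : ∀ p ∈ S, 0 < ρ p) (hρ1 : ∀ p ∈ S, θ * ρ p ≤ r1) (hρR : ∀ p ∈ S, ρ p ≤ R)
    (hy : ∀ p ∈ S, y p ∈ F) (hyp : ∀ p ∈ S, dist (adj L (y p)) p ≤ ρ p)
    (hin : ∀ p ∈ S, closedBall (y p) (θ * ρ p) ⊆ W)
    (hdis : ∀ p ∈ S, Disjoint (closedBall (y p) (θ * ρ p)) F1) :
    volume S ≤ ENNReal.ofReal (10 ^ n / (c * θ ^ n)) * om n * μ (W \ F1) := by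
  have hc := H.hc
  obtain ⟨u, huS, hud, hucov⟩ := Vitali.exists_disjoint_subfamily_covering_enlargement_closedBall
    S (fun p => p) (fun p => 2 * ρ p) (2 * R) (fun p hp => by
      have := hρR p hp
      linarith) 5 (by norm_num)
  have huc : u.Countable := countable_of_disjoint_balls u (fun p => p) (fun p => 2 * ρ p)
    (fun p hp => by have := hρ0 p (huS hp); linarith) hud
  have hud' : u.PairwiseDisjoint fun p => closedBall (y p) (θ * ρ p) := by
    intro p hp q hq hpq
    have h1 := hud hp hq hpq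
    rw [Function.onFun, Set.disjoint_left] at h1 ⊢
    intro w hw1 hw2
    have key : ∀ p ∈ S, w ∈ closedBall (y p) (θ * ρ p) → adj L w ∈ closedBall p (2 * ρ p) := by
      intro p hp hw
      rw [mem_closedBall] at hw ⊢
      have h0 := hρ0 p hp
      calc dist (adj L w) p ≤ dist (adj L w) (adj L (y p)) + dist (adj L (y p)) p :=
            dist_triangle _ _ _
        _ ≤ dist w (y p) + ρ p := by
            gcongr
            · simpa using (lip_adj L).dist_le_mul w (y p)
            · exact hyp p hp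
        _ ≤ 1 * ρ p + ρ p := by gcongr; exact hw.trans (by gcongr)
        _ = 2 * ρ p := by ring
    exact h1 (key p (huS hp) hw1) (key q (huS hq) hw2)
  have hcov : S ⊆ ⋃ p ∈ u, closedBall p (5 * (2 * ρ p)) := by
    intro p hp
    obtain ⟨b, hb, hsub⟩ := hucov p hp
    simp only [mem_iUnion]
    exact ⟨b, hb, hsub (mem_closedBall_self (by have := hρ0 p hp; linarith))⟩
  calc volume S ≤ volume (⋃ p ∈ u, closedBall p (5 * (2 * ρ p))) := measure_mono hcov
    _ ≤ ∑' p : u, volume (closedBall (p : Eu n) (5 * (2 * ρ p))) := measure_biUnion_le _ huc _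
    _ ≤ ∑' p : u, ENNReal.ofReal (10 ^ n / (c * θ ^ n)) * om n *
          μ (closedBall (y p) (θ * ρ p) \ F1) := by
        refine ENNReal.tsum_le_tsum (fun p => ?_)
        have hp := huS p.2
        have h0 := hρ0 p hp
        rw [volume_closedBall_eq _ (by positivity)]
        have h1 := H.hlow (y p) (hy p hp) (θ * ρ p) (by positivity) (hρ1 p hp)
        rw [(hdis p hp).sdiff_eq_left]
        calc ENNReal.ofReal ((5 * (2 * ρ p)) ^ n) * volume (closedBall (0 : Eu n) 1)
            = ENNReal.ofReal (10 ^ n / (c * θ ^ n)) * om n *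
              ENNReal.ofReal (c * (θ * ρ p) ^ n) := by
              rw [mul_right_comm (ENNReal.ofReal (10 ^ n / (c * θ ^ n))) (om n),
                ← ENNReal.ofReal_mul (by positivity), om]
              congr 2
              rw [mul_pow θ]
              field_simp
              ring
          _ ≤ _ := by gcongr
    _ = ENNReal.ofReal (10 ^ n / (c * θ ^ n)) * om n *
          ∑' p : u, μ (closedBall (y p) (θ * ρ p) \ F1) := ENNReal.tsum_mul_left
    _ = ENNReal.ofReal (10 ^ n / (c * θ ^ n)) * om n *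
          μ (⋃ p ∈ u, (closedBall (y p) (θ * ρ p) \ F1)) := by
        rw [measure_biUnion huc]
        · exact fun p hp q hq hpq => (hud' hp hq hpq).mono sdiff_subset sdiff_subset
        · exact fun p _ => isClosed_closedBall.measurableSet.diff hF1m
    _ ≤ _ := by
        gcongr
        refine iUnion₂_subset (fun p hp => ?_)
        exact sdiff_subset_sdiff_left (hin p (huS hp))

end H54Crit
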