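import Pool.Agent.H54Crit.HoleA

/-!
# Holes near the good set
-/

open MeasureTheory Metric Set Filter
open scoped ENNReal NNReal Topology

namespace H54Crit

lemma vol_holeB {n d : ℕ} (μ : Measure (Eu d)) [IsFiniteMeasure μ] (F : Set (Eu d))
    {c r1 M R : ℝ} (H : Hyp n μ F c r1) (hM : 1 ≤ M)
    (L : Eu n →ₗᵢ[ℝ] Eu d) (W : Set (Eu d))
    (S : Set (Eu n)) (ρ : Eu n → ℝ) (z : Eu n → Eu d)
    (hρ0 : ∀ p ∈ S, 0 < ρ p) (hρ1 : ∀ p ∈ S, M * ρ p ≤ r1) (hρR : ∀ p ∈ S, ρ p ≤ R)
    (hz : ∀ p ∈ S, z p ∈ F) (hzp : ∀ p ∈ S, dist (adj L (z p)) p ≤ 2 * ρ p)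
    (hin : ∀ p ∈ S, closedBall (z p) (M * ρ p) ⊆ W)
    (hslab : ∀ b ∈ S, ∃ e : Eu n, ‖e‖ = 1 ∧ ∀ w ∈ F, dist w (z b) ≤ 5 * M * ρ b →
      |inner ℝ (adj L w - adj L (z b)) e| ≤ 41 * ρ b) :
    volume S ≤ ENNReal.ofReal (20 * 14 ^ n / (c * M)) * om n * μ W := by
  have hc := H.hc
  have hM0 : 0 < M := by linarith
  obtain ⟨u, huS, hud, hucov⟩ := Vitali.exists_disjoint_subfamily_covering_enlargement
    (fun p => closedBall (z p) (M * ρ p)) S (fun p => M * ρ p) 2 (by norm_num)
    (fun p hp => by have := hρ0 p hp; positivity) (M * R)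
    (fun p hp => by have := hρR p hp; gcongr)
    (fun p hp => ⟨z p, mem_closedBall_self (by have := hρ0 p hp; positivity)⟩)
  have huc : u.Countable := countable_of_disjoint_balls u z (fun p => M * ρ p)
    (fun p hp => by have := hρ0 p (huS hp); positivity) hud
  choose! e he1 he2 using hslab
  have hcov : S ⊆ ⋃ b ∈ u, slab (adj L (z b)) (e b) (45 * ρ b) (7 * M * ρ b) := by
    intro p hp
    obtain ⟨b, hb, ⟨w, hw1, hw2⟩, hδ⟩ := hucov p hp
    have hbS := huS hb
    have h0p := hρ0 p hp
    have h0b := hρ0 b hbS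
    simp only [mem_iUnion]
    refine ⟨b, hb, ?_⟩
    rw [mem_closedBall] at hw1 hw2
    have hρ : ρ p ≤ 2 * ρ b := by
      by_contra hcon
      push Not at hcon
      have := mul_lt_mul_of_pos_left hcon hM0
      linarith
    have hzz : dist (z p) (z b) ≤ 3 * M * ρ b := by
      calc dist (z p) (z b) ≤ dist (z p) w + dist w (z b) := dist_triangle _ _ _
        _ ≤ M * ρ p + M * ρ b := by rw [dist_comm (z p) w]; gcongr
        _ ≤ M * (2 * ρ b) + M * ρ b := by gcongr
        _ = 3 * M * ρ b := by ring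
    have h1 := he2 b hbS (z p) (hz p hp) (hzz.trans (by nlinarith))
    have h2 : ‖p - adj L (z p)‖ ≤ 4 * ρ b := by
      rw [← dist_eq_norm, dist_comm]
      exact (hzp p hp).trans (by linarith)
    have h3 : p - adj L (z b) = (p - adj L (z p)) + (adj L (z p) - adj L (z b)) := by abel
    constructor
    · rw [h3, inner_add_left]
      calc |inner ℝ (p - adj L (z p)) (e b) + inner ℝ (adj L (z p) - adj L (z b)) (e b)|
          ≤ |inner ℝ (p - adj L (z p)) (e b)| + |inner ℝ (adj L (z p) - adj L (z b)) (e b)| :=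
            abs_add_le _ _
        _ ≤ 4 * ρ b + 41 * ρ b := by
            gcongr
            refine (abs_real_inner_le_norm _ _).trans ?_
            rw [he1 b hbS, mul_one]
            exact h2
        _ = 45 * ρ b := by ring
    · rw [h3]
      refine (norm_add_le _ _).trans ?_
      have h4 : ‖adj L (z p) - adj L (z b)‖ ≤ 3 * M * ρ b := by
        rw [← map_sub]
        refine (norm_adj_le L _).trans ?_
        rw [← dist_eq_norm]; exact hzz
      nlinarith
  calc volume S ≤ volume (⋃ b ∈ u, slab (adj L (z b)) (e b) (45 * ρ b) (7 * M * ρ b)) :=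
        measure_mono hcov
    _ ≤ ∑' b : u, volume (slab (adj L (z b)) (e b) (45 * ρ b) (7 * M * ρ b)) :=
        measure_biUnion_le _ huc _
    _ ≤ ∑' b : u, ENNReal.ofReal (20 * 14 ^ n / (c * M)) * om n *
          μ (closedBall (z b) (M * ρ b)) := by
        refine ENNReal.tsum_le_tsum (fun b => ?_)
        have hbS := huS b.2
        have h0 := hρ0 b hbS
        refine (slab_volume _ (e b) (he1 b hbS) (by positivity) (by positivity)).trans ?_
        have h1 := H.hlow (z b) (hz b hbS) (M * ρ b) (by positivity) (hρ1 b hbS)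
        calc ENNReal.ofReal (3 * (45 * ρ b) / (7 * M * ρ b) * (2 * (7 * M * ρ b)) ^ n) *
              volume (closedBall (0 : Eu n) 1)
            ≤ ENNReal.ofReal (20 * 14 ^ n / (c * M) * (c * (M * ρ b) ^ n)) * om n := by
              rw [om]
              refine mul_le_mul' (ENNReal.ofReal_le_ofReal ?_) le_rfl
              have h5 : (2 * (7 * M * ρ b)) ^ n = 14 ^ n * (M * ρ b) ^ n := by
                rw [← mul_pow]; congr 1; ring
              rw [h5]
              have h6 : 3 * (45 * ρ (b : Eu n)) / (7 * M * ρ b) = 135 / 7 / M := by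
                field_simp; norm_num
              rw [h6]
              have h7 : 20 * 14 ^ n / (c * M) * (c * (M * ρ (b : Eu n)) ^ n)
                  = 20 / M * (14 ^ n * (M * ρ b) ^ n) := by
                field_simp
              rw [h7]
              gcongr
              norm_num
          _ = ENNReal.ofReal (20 * 14 ^ n / (c * M)) * om n *
              ENNReal.ofReal (c * (M * ρ b) ^ n) := by
              rw [mul_right_comm (ENNReal.ofReal (20 * 14 ^ n / (c * M))) (om n),
                ← ENNReal.ofReal_mul (by positivity)]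
          _ ≤ _ := by gcongr
    _ = ENNReal.ofReal (20 * 14 ^ n / (c * M)) * om n *
          ∑' b : u, μ (closedBall (z b) (M * ρ b)) := ENNReal.tsum_mul_left
    _ = ENNReal.ofReal (20 * 14 ^ n / (c * M)) * om n *
          μ (⋃ b ∈ u, closedBall (z b) (M * ρ b)) := by
        rw [measure_biUnion huc hud]
        exact fun p _ => isClosed_closedBall.measurableSet
    _ ≤ _ := by
        gcongr
        exact iUnion₂_subset (fun p hp => hin p (huS hp))

/-- steepness: if there is a hole `b` near the projection of `z` then the part of `F` near `z`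
projects into a slab -/
lemma steep {n d : ℕ} (L : Eu n →ₗᵢ[ℝ] Eu d) (F : Set (Eu d)) (z : Eu d) (b : Eu n)
    {η M ρ : ℝ} (hM : 2 ≤ M) (hρ : 0 < ρ) (hη : 0 < η) (hηM : 5 * M * η < 1)
    (hflat : BFlat n F z (5 * M * ρ) η) (hzb : dist (adj L z) b ≤ 2 * ρ)
    (hhole : ∀ w ∈ F, dist w z ≤ M * ρ → ρ ≤ dist (adj L w) b) :
    ∃ e : Eu n, ‖e‖ = 1 ∧ ∀ w ∈ F, dist w z ≤ 5 * M * ρ →
      |inner ℝ (adj L w - adj L z) e| ≤ 41 * ρ := by
  have hM0 : 0 < M := by linarith
  have hη1 : η < 1 := by nlinarith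
  obtain ⟨L', h1, h2⟩ := hflat
  have hex : ∃ e : Eu n, ‖e‖ = 1 ∧
      ‖ContinuousLinearMap.adjoint (adj L ∘L L'.toContinuousLinearMap) e‖ ≤ 4 / M := by
    by_contra hcon
    push Not at hcon
    obtain ⟨h3, h4⟩ := onto_of_adjoint_lower (adj L ∘L L'.toContinuousLinearMap)
      (τ := 4 / M) (by positivity) (fun e he => (hcon e he).le)
    obtain ⟨v, hv⟩ := h4 (b - adj L z)
    have hvn : ‖v‖ ≤ M * ρ / 2 := by
      have := h3 v
      rw [hv, ← dist_eq_norm, dist_comm] at this
      have h5 : 4 / M * ‖v‖ ≤ 2 * ρ := this.trans hzb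
      rw [div_mul_eq_mul_div, div_le_iff₀ hM0] at h5
      linarith
    obtain ⟨w, hwF, hw⟩ := h2 v (hvn.trans (by nlinarith [mul_pos hM0 hρ]))
    have hw' : dist w (z + L' v) < ρ / 1 := by
      refine hw.trans_lt ?_
      have : η * (5 * M * ρ) = (5 * M * η) * ρ := by ring
      rw [this, div_one]
      nlinarith
    have hPw : dist (adj L w) b < ρ := by
      have h5 : adj L (z + L' v) = b := by
        have : (adj L ∘L L'.toContinuousLinearMap) v = adj L (L' v) := rfl
        rw [map_add, ← this, hv]; abel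
      rw [← h5]
      have := (lip_adj L).dist_le_mul w (z + L' v)
      rw [NNReal.coe_one, one_mul] at this
      rw [div_one] at hw'
      linarith
    have hwz : dist w z ≤ M * ρ := by
      have h6 : dist (z + L' v) z = ‖v‖ := by
        rw [dist_eq_norm, add_sub_cancel_left, L'.norm_map]
      have h7 := dist_triangle w (z + L' v) z
      rw [h6] at h7
      rw [div_one] at hw'
      nlinarith
    exact absurd (hhole w hwF hwz) (not_le.2 hPw)
  obtain ⟨e, he, heτ⟩ := hex
  refine ⟨e, he, fun w hwF hwz => ?_⟩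
  have := slab_incl L L' F z (by positivity) hη1.le (by positivity) h1 e he heτ
    ⟨w, ⟨hwF, hwz⟩, rfl⟩
  refine this.1.trans ?_
  have h5 : (2 * (4 / M) + η) * (5 * M * ρ) = 40 * ρ + (5 * M * η) * ρ := by
    field_simp; ring
  rw [h5]
  nlinarith

end H54Crit
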