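import Pool.Agent.H54Crit.HoleB

/-!
# The area estimate at one good ball
-/

open MeasureTheory Metric Set Filter
open scoped ENNReal NNReal Topology

namespace H54Crit

/-- flatness passes to closures with a worse constant -/
lemma flat_closure {n d : ℕ} (F A : Set (Eu d)) {η δ : ℝ} (hη : 0 < η) (hη1 : η ≤ 1)
    (hA : ∀ x ∈ A, ∀ r, 0 < r → r < δ → BFlat n F x r η) (x : Eu d) (hx : x ∈ closure A)
    (r : ℝ) (hr : 0 < r) (hrδ : r < δ / 2) : BFlat n F x r (3 * η) := by
  obtain ⟨x', hx', hxx'⟩ := Metric.mem_closure_iff.1 hx (η * r) (by positivity)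
  have hr' : (1 + η) * r < δ := by nlinarith
  obtain ⟨L, h1, h2⟩ := hA x' hx' ((1 + η) * r) (by positivity) hr'
  have hkey : ∀ (y : Eu d) (a : Eu n), dist y (x' + L a) ≤ η * ((1 + η) * r) →
      dist y (x + L a) ≤ 3 * η * r := by
    intro y a h
    calc dist y (x + L a) ≤ dist y (x' + L a) + dist (x' + L a) (x + L a) := dist_triangle _ _ _
      _ ≤ η * ((1 + η) * r) + η * r := by
          gcongr
          rw [dist_add_right, dist_comm]; exact hxx'.le
      _ ≤ η * ((1 + 1) * r) + η * r := by gcongr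
      _ = 3 * η * r := by ring
  refine ⟨L, fun y hy hyx => ?_, fun a ha => ?_⟩
  · obtain ⟨a, ha⟩ := h1 y hy (by
      calc dist y x' ≤ dist y x + dist x x' := dist_triangle _ _ _
        _ ≤ r + η * r := by gcongr
        _ = (1 + η) * r := by ring)
    exact ⟨a, hkey y a ha⟩
  · obtain ⟨y, hy, hya⟩ := h2 a (ha.trans (by nlinarith))
    exact ⟨y, hy, hkey y a hya⟩

/-- data of the nearest points -/
lemma hole_data {n d : ℕ} (F : Set (Eu d)) (hF : IsClosed F) (x0 : Eu d) (hx0 : x0 ∈ F)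
    {r0 η : ℝ} (hr0 : 0 < r0) (hη : 0 < η) (hη1 : η ≤ 1 / 12) (L : Eu n →ₗᵢ[ℝ] Eu d)
    (h1 : ∀ y ∈ F, dist y x0 ≤ r0 → ∃ a, dist y (x0 + L a) ≤ η * r0)
    (h2 : ∀ a, ‖a‖ ≤ r0 → ∃ y ∈ F, dist y (x0 + L a) ≤ η * r0)
    (p : Eu n) (hp : p ∈ closedBall (adj L x0) (r0 / 2)) :
    ∃ y ∈ F ∩ closedBall x0 r0,
      dist (adj L y) p = infDist p (adj L '' (F ∩ closedBall x0 r0)) ∧
      infDist p (adj L '' (F ∩ closedBall x0 r0)) ≤ η * r0 ∧
      dist y x0 ≤ (1 / 2 + 3 * η) * r0 := by
  have hK : IsCompact (adj L '' (F ∩ closedBall x0 r0)) :=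
    ((isCompact_closedBall x0 r0).inter_left hF).image (adj L).continuous
  have hne : (adj L '' (F ∩ closedBall x0 r0)).Nonempty :=
    ⟨_, x0, ⟨hx0, mem_closedBall_self hr0.le⟩, rfl⟩
  obtain ⟨q, ⟨y, hy, rfl⟩, hq⟩ := hK.exists_infDist_eq_dist hne p
  rw [mem_closedBall, dist_eq_norm] at hp
  have hle : infDist p (adj L '' (F ∩ closedBall x0 r0)) ≤ η * r0 := by
    obtain ⟨w, hw, hwd⟩ := h2 (p - adj L x0) (hp.trans (by linarith))
    have h3 : adj L (x0 + L (p - adj L x0)) = p := by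
      rw [map_add, adj_apply]; abel
    have h4 : dist (adj L w) p ≤ η * r0 := by
      calc dist (adj L w) p = dist (adj L w) (adj L (x0 + L (p - adj L x0))) := by rw [h3]
        _ ≤ dist w (x0 + L (p - adj L x0)) := by
            simpa using (lip_adj L).dist_le_mul w (x0 + L (p - adj L x0))
        _ ≤ η * r0 := hwd
    refine (infDist_le_dist_of_mem ?_).trans (by rw [dist_comm]; exact h4)
    refine ⟨w, ⟨hw, ?_⟩, rfl⟩
    rw [mem_closedBall]
    calc dist w x0 ≤ dist w (x0 + L (p - adj L x0)) + dist (x0 + L (p - adj L x0)) x0 :=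
          dist_triangle _ _ _
      _ ≤ η * r0 + r0 / 2 := by
          gcongr
          rw [dist_eq_norm, add_sub_cancel_left, L.norm_map]; exact hp
      _ ≤ r0 := by nlinarith
  refine ⟨y, hy, by rw [hq, dist_comm], hle, ?_⟩
  obtain ⟨a, ha⟩ := h1 y hy.1 hy.2
  have h5 : ‖a‖ ≤ (1 / 2 + 2 * η) * r0 := by
    have h6 : adj L (x0 + L a) = adj L x0 + a := by rw [map_add, adj_apply]
    have h7 : dist (adj L y) (adj L x0 + a) ≤ η * r0 := by
      rw [← h6]
      exact (by simpa using (lip_adj L).dist_le_mul y (x0 + L a) :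
        dist (adj L y) (adj L (x0 + L a)) ≤ dist y (x0 + L a)).trans ha
    calc ‖a‖ = dist (adj L x0 + a) (adj L x0) := by rw [dist_eq_norm, add_sub_cancel_left]
      _ ≤ dist (adj L x0 + a) (adj L y) + (dist (adj L y) p + dist p (adj L x0)) :=
          (dist_triangle _ (adj L y) _).trans (by gcongr; exact dist_triangle _ _ _)
      _ ≤ η * r0 + (η * r0 + r0 / 2) := by
          gcongr
          · rw [dist_comm]; exact h7
          · rw [dist_comm, ← hq]; exact hle
          · rw [dist_eq_norm]; exact hp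
      _ = (1 / 2 + 2 * η) * r0 := by ring
  calc dist y x0 ≤ dist y (x0 + L a) + dist (x0 + L a) x0 := dist_triangle _ _ _
    _ ≤ η * r0 + (1 / 2 + 2 * η) * r0 := by
        gcongr
        rw [dist_eq_norm, add_sub_cancel_left, L.norm_map]; exact h5
    _ = _ := by ring

/-- The area estimate. -/
lemma area_estimate {n d : ℕ} (μ : Measure (Eu d)) [IsFiniteMeasure μ] (F F1 : Set (Eu d))
    {c r1 η M : ℝ} (H : Hyp n μ F c r1) (hF1 : F1 ⊆ F) (hF1m : MeasurableSet F1)
    (hη : 0 < η) (hM : 2 ≤ M) (hηM : M * η ≤ 1 / 100)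
    (hflat : ∀ x ∈ F1, ∀ r, 0 < r → r < r1 → BFlat n F x r η)
    (hU : ∀ h : Eu n → Eu d, IsLip h → μ (F1 ∩ range h) = 0)
    (x0 : Eu d) (hx0 : x0 ∈ F1) {r0 : ℝ} (hr0 : 0 < r0) (hr01 : r0 < r1) :
    ENNReal.ofReal ((r0 / 2) ^ n) * om n ≤
      ENNReal.ofReal (30 * η * 2 ^ n / c) * om n * μ (closedBall x0 (2 * r0)) +
      μ (closedBall x0 (2 * r0) \ F1) +
      ENNReal.ofReal (10 ^ n / c) * om n * μ (closedBall x0 (2 * r0) \ F1) +
      ENNReal.ofReal (20 * 14 ^ n / (c * M)) * om n * μ (closedBall x0 (2 * r0)) := by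
  classical
  have hM0 : 0 < M := by linarith
  have hη2 : η ≤ 1 / 200 := by nlinarith
  obtain ⟨L, h1, h2⟩ := hflat x0 hx0 r0 hr0 hr01
  set P := adj L
  set K := P '' (F ∩ closedBall x0 r0) with hKdef
  set W := closedBall x0 (2 * r0) with hW
  have hx0F := hF1 hx0
  have hKc : IsCompact K :=
    ((isCompact_closedBall x0 r0).inter_left H.hF).image (adj L).continuous
  have hKne : K.Nonempty := ⟨_, x0, ⟨hx0F, mem_closedBall_self hr0.le⟩, rfl⟩
  have hdata := hole_data F H.hF x0 hx0F hr0 hη (by linarith) L h1 h2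
  choose! y hyF hyd hyle hyx using hdata
  let ρ : Eu n → ℝ := fun p => infDist p K
  let D : Set (Eu n) := closedBall (P x0) (r0 / 2)
  let SA : Set (Eu n) := {p ∈ D \ K | Disjoint (closedBall (y p) (1 * ρ p)) F1}
  let SB : Set (Eu n) := {p ∈ D \ K | ¬ Disjoint (closedBall (y p) (1 * ρ p)) F1}
  have hρ0 : ∀ p ∈ D \ K, 0 < ρ p := by
    intro p hp
    exact (hKc.isClosed.notMem_iff_infDist_pos hKne).1 hp.2
  have hρle : ∀ p ∈ D \ K, ρ p ≤ η * r0 := fun p hp => hyle p hp.1
  -- volume of K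
  have hvK : volume K ≤ ENNReal.ofReal (30 * η * 2 ^ n / c) * om n * μ W + μ (W \ F1) := by
    have hsub : K ⊆ (P '' (F1 ∩ closedBall x0 r0)) ∪ (P '' ((F ∩ closedBall x0 r0) \ F1)) := by
      rintro _ ⟨x, hx, rfl⟩
      by_cases hx1 : x ∈ F1
      · left; exact ⟨x, ⟨hx1, hx.2⟩, rfl⟩
      · right; exact ⟨x, ⟨hx, hx1⟩, rfl⟩
    refine (measure_mono hsub).trans ((measure_union_le _ _).trans ?_)
    refine add_le_add ?_ ?_
    · have := vol_proj_unrect μ F F1 H hF1 hη (by linarith) hη hflat hU L x0 hr0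
      refine this.trans (le_of_eq ?_)
      congr 3
      ring
    · refine (volume_image_adj_le L _).trans ((H.hH _ (fun x hx => hx.1.1)).trans ?_)
      refine measure_mono (fun x hx => ⟨?_, hx.2⟩)
      exact closedBall_subset_closedBall (by linarith) hx.1.2
  -- volume of SA
  have hvA : volume SA ≤ ENNReal.ofReal (10 ^ n / c) * om n * μ (W \ F1) := by
    have := vol_holeA (θ := 1) (R := η * r0) μ F F1 H hF1m one_pos le_rfl L W SA ρ y
      (fun p hp => hρ0 p hp.1)
      (fun p hp => by have := hρle p hp.1; nlinarith)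
      (fun p hp => hρle p hp.1)
      (fun p hp => (hyF p hp.1.1).1)
      (fun p hp => (hyd p hp.1.1).le)
      (fun p hp => by
        refine closedBall_subset_closedBall' ?_
        have h3 := hρle p hp.1
        have h4 := hyx p hp.1.1
        nlinarith)
      (fun p hp => hp.2)
    simpa using this
  -- volume of SB
  have hz : ∀ p ∈ SB, ∃ z ∈ F1, dist z (y p) ≤ ρ p := by
    intro p hp
    obtain ⟨z, hz1, hz2⟩ := Set.not_disjoint_iff.1 hp.2
    rw [one_mul, mem_closedBall] at hz1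
    exact ⟨z, hz2, hz1⟩
  choose! z hzF1 hzy using hz
  have hzp : ∀ p ∈ SB, dist (adj L (z p)) p ≤ 2 * ρ p := by
    intro p hp
    calc dist (adj L (z p)) p ≤ dist (adj L (z p)) (adj L (y p)) + dist (adj L (y p)) p :=
          dist_triangle _ _ _
      _ ≤ ρ p + ρ p := by
          gcongr
          · exact (by simpa using (lip_adj L).dist_le_mul (z p) (y p) :
              dist (adj L (z p)) (adj L (y p)) ≤ dist (z p) (y p)).trans (hzy p hp)
          · exact (hyd p hp.1.1).le
      _ = 2 * ρ p := by ring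
  have hvB : volume SB ≤ ENNReal.ofReal (20 * 14 ^ n / (c * M)) * om n * μ W := by
    refine vol_holeB (R := η * r0) μ F H (by linarith) L W SB ρ z
      (fun p hp => hρ0 p hp.1)
      (fun p hp => by have := hρle p hp.1; nlinarith)
      (fun p hp => hρle p hp.1)
      (fun p hp => hF1 (hzF1 p hp)) hzp
      (fun p hp => by
        refine closedBall_subset_closedBall' ?_
        have h3 := hρle p hp.1
        have h4 := hyx p hp.1.1
        have h5 : dist (z p) x0 ≤ ρ p + (1 / 2 + 3 * η) * r0 :=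
          (dist_triangle _ (y p) _).trans (add_le_add (hzy p hp) h4)
        have h6 : M * ρ p ≤ M * (η * r0) := by gcongr
        nlinarith) ?_
    intro b hb
    have h3 := hρle b hb.1
    have h0 := hρ0 b hb.1
    have h6 : M * ρ b ≤ M * (η * r0) := by gcongr
    refine steep L F (z b) b hM h0 hη (by nlinarith) (hflat (z b) (hzF1 b hb) _ (by positivity)
      (by nlinarith)) (hzp b hb) ?_
    intro w hw hwz
    have h7 : P w ∈ K := by
      refine ⟨w, ⟨hw, ?_⟩, rfl⟩
      rw [mem_closedBall]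
      have h4 := hyx b hb.1.1
      have h5 : dist (z b) x0 ≤ ρ b + (1 / 2 + 3 * η) * r0 :=
        (dist_triangle _ (y b) _).trans (add_le_add (hzy b hb) h4)
      have h8 := dist_triangle w (z b) x0
      nlinarith
    have h8 := infDist_le_dist_of_mem h7 (x := b)
    rw [dist_comm] at h8
    exact h8
  have hDsub : D ⊆ K ∪ (SA ∪ SB) := by
    intro p hp
    by_cases hpK : p ∈ K
    · exact Or.inl hpK
    · right
      by_cases hd : Disjoint (closedBall (y p) (1 * ρ p)) F1
      · exact Or.inl ⟨⟨hp, hpK⟩, hd⟩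
      · exact Or.inr ⟨⟨hp, hpK⟩, hd⟩
  have hvD : volume D = ENNReal.ofReal ((r0 / 2) ^ n) * om n :=
    volume_closedBall_eq _ (by positivity)
  calc ENNReal.ofReal ((r0 / 2) ^ n) * om n = volume D := hvD.symm
    _ ≤ volume K + (volume SA + volume SB) :=
        (measure_mono hDsub).trans ((measure_union_le _ _).trans
          (by gcongr; exact measure_union_le _ _))
    _ ≤ (ENNReal.ofReal (30 * η * 2 ^ n / c) * om n * μ W + μ (W \ F1)) +
        (ENNReal.ofReal (10 ^ n / c) * om n * μ (W \ F1) +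
          ENNReal.ofReal (20 * 14 ^ n / (c * M)) * om n * μ W) := by gcongr
    _ = _ := by ring

end H54Crit
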