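import Pool.Agent.H54Crit.Holes

/-!
# The Marstrand-Mattila criterion
-/

open MeasureTheory Metric Set Filter
open scoped ENNReal NNReal Topology

namespace H54Crit

lemma Hyp.mono {n d : ℕ} {μ : Measure (Eu d)} {F : Set (Eu d)} {c r1 r1' : ℝ}
    (H : Hyp n μ F c r1) (h0 : 0 < r1') (h1 : r1' ≤ r1) : Hyp n μ F c r1' :=
  ⟨H.hn, H.hc, h0, H.hF, H.hH, fun x hx r hr hr' => H.hlow x hx r hr (hr'.trans h1)⟩

lemma om_pos (n : ℕ) : 0 < om n := measure_closedBall_pos volume _ one_pos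

/-- density point with small complement at one small scale -/
lemma exists_density_scale {d : ℕ} (μ : Measure (Eu d)) [IsFiniteMeasure μ] (F1 : Set (Eu d))
    (hF1 : MeasurableSet F1) (hpos : μ F1 ≠ 0) :
    ∃ x0 ∈ F1, ∀ ε : ℝ, 0 < ε → ∃ δ > 0, ∀ r, 0 < r → r < δ →
      μ (closedBall x0 r \ F1) ≤ ENNReal.ofReal ε * μ (closedBall x0 r) := by
  have h := Besicovitch.ae_tendsto_measure_inter_div_of_measurableSet μ hF1.compl
  obtain ⟨x0, hx0, hx1⟩ : ∃ x0 ∈ F1, Tendsto (fun r => μ (F1ᶜ ∩ closedBall x0 r) /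
      μ (closedBall x0 r)) (𝓝[>] 0) (𝓝 ((F1ᶜ).indicator 1 x0)) := by
    by_contra hcon
    push Not at hcon
    apply hpos
    refine measure_mono_null (fun x hx => ?_) h
    exact hcon x hx
  refine ⟨x0, hx0, fun ε hε => ?_⟩
  rw [indicator_of_notMem (by simpa using hx0)] at hx1
  have h2 : ∀ᶠ r in 𝓝[>] (0:ℝ), μ (F1ᶜ ∩ closedBall x0 r) / μ (closedBall x0 r) <
      ENNReal.ofReal ε := (tendsto_order.1 hx1).2 _ (by simpa using hε)
  obtain ⟨δ, hδ, hδ2⟩ := mem_nhdsGT_iff_exists_Ioo_subset.1 h2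
  refine ⟨δ, hδ, fun r hr hrδ => ?_⟩
  have h3 : μ (F1ᶜ ∩ closedBall x0 r) / μ (closedBall x0 r) < ENNReal.ofReal ε := hδ2 ⟨hr, hrδ⟩
  have h4 : closedBall x0 r \ F1 = F1ᶜ ∩ closedBall x0 r := by
    rw [sdiff_eq, inter_comm]
  rw [h4]
  rcases eq_or_ne (μ (closedBall x0 r)) 0 with h0 | h0
  · have : μ (F1ᶜ ∩ closedBall x0 r) = 0 := measure_mono_null inter_subset_right h0
    rw [this]; exact zero_le
  · exact ((ENNReal.div_le_iff_le_mul (Or.inl h0) (Or.inl (measure_ne_top _ _))).1 h3.le)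

theorem crit {n d : ℕ} (μ : Measure (Eu d)) [IsFiniteMeasure μ] (F : Set (Eu d))
    {c r1 C : ℝ} (H : Hyp n μ F c r1)
    (hup : ∀ x, ∀ r > 0, μ (closedBall x r) ≤ ENNReal.ofReal (C * r ^ n))
    (hflat : ∀ᵐ x ∂(μ.restrict F), ∀ η > 0, ∃ r0 > 0, ∀ r, 0 < r → r < r0 → BFlat n F x r η) :
    ∃ g : ℕ → (Eu n → Eu d), (∀ i, ∃ K : ℝ≥0, LipschitzWith K (g i)) ∧
      μ (F \ ⋃ i, range (g i)) = 0 := by
  obtain ⟨g, hg, hbest⟩ := exists_best (n := n) μ F H.hF.measurableSet
  refine ⟨g, hg, ?_⟩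
  by_contra hpos
  set U := F \ ⋃ i, range (g i) with hUdef
  have hUm : MeasurableSet U :=
    H.hF.measurableSet.diff (MeasurableSet.iUnion (fun i => (hg i).measurableSet_range))
  have hUF : U ⊆ F := sdiff_subset
  have hc := H.hc
  -- C is positive (WLOG)
  wlog hC : 0 < C generalizing C
  · refine this (C := 1) (fun x r hr => ?_) one_pos
    refine (hup x r hr).trans (ENNReal.ofReal_le_ofReal ?_)
    push Not at hC
    nlinarith [pow_pos hr n]
  set om' : ℝ := (om n).toReal with hom'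
  have hom'pos : 0 < om' := ENNReal.toReal_pos (om_pos n).ne' (om_lt_top n).ne
  have homeq : om n = ENNReal.ofReal om' := (ENNReal.ofReal_toReal (om_lt_top n).ne).symm
  -- choice of the constants
  set T : ℝ := (1 / 2) ^ n / 5 with hT
  have hTpos : 0 < T := by positivity
  obtain ⟨M, hM2, hMT⟩ : ∃ M : ℝ, 2 ≤ M ∧ 20 * 14 ^ n / (c * M) * (C * 2 ^ n) ≤ T := by
    refine ⟨max 2 (20 * 14 ^ n / c * (C * 2 ^ n) / T), le_max_left _ _, ?_⟩
    have h1 : 20 * 14 ^ n / c * (C * 2 ^ n) / T ≤ max 2 (20 * 14 ^ n / c * (C * 2 ^ n) / T) :=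
      le_max_right _ _
    have h0 : 0 < max 2 (20 * 14 ^ n / c * (C * 2 ^ n) / T) :=
      lt_of_lt_of_le (by norm_num) (le_max_left _ _)
    rw [div_le_iff₀ hTpos] at h1
    set M := max 2 (20 * 14 ^ n / c * (C * 2 ^ n) / T)
    have : 20 * 14 ^ n / (c * M) * (C * 2 ^ n) = (20 * 14 ^ n / c * (C * 2 ^ n)) / M := by
      field_simp
    rw [this, div_le_iff₀ h0]
    linarith
  have hM0 : 0 < M := by linarith
  obtain ⟨η, hη, hηM, hηT⟩ : ∃ η : ℝ, 0 < η ∧ M * η ≤ 1 / 100 ∧
      30 * η * 2 ^ n / c * (C * 2 ^ n) ≤ T := by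
    refine ⟨min (1 / (100 * M)) (T / (30 * 2 ^ n / c * (C * 2 ^ n))), by positivity, ?_, ?_⟩
    · calc M * min (1 / (100 * M)) (T / (30 * 2 ^ n / c * (C * 2 ^ n)))
          ≤ M * (1 / (100 * M)) := by gcongr; exact min_le_left _ _
        _ = 1 / 100 := by field_simp
    · calc 30 * min (1 / (100 * M)) (T / (30 * 2 ^ n / c * (C * 2 ^ n))) * 2 ^ n / c * (C * 2 ^ n)
          ≤ 30 * (T / (30 * 2 ^ n / c * (C * 2 ^ n))) * 2 ^ n / c * (C * 2 ^ n) := by
            gcongr; exact min_le_right _ _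
        _ = T := by field_simp
  -- uniform flatness
  let A : ℕ → Set (Eu d) := fun m =>
    {x | ∀ r, 0 < r → r < 1 / (m + 1 : ℝ) → BFlat n F x r (η / 3)}
  have hUA : ∃ m, μ (U ∩ A m) ≠ 0 := by
    by_contra hcon
    push Not at hcon
    apply hpos
    have h1 : μ (U ∩ ⋃ m, A m) = 0 := by
      rw [inter_iUnion, measure_iUnion_null_iff]
      exact hcon
    have h2 : μ (U \ ⋃ m, A m) = 0 := by
      have h3 : μ.restrict F (U \ ⋃ m, A m) = 0 := by
        refine measure_mono_null (fun x hx => ?_) hflat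
        intro hx2
        obtain ⟨r0, hr0, hr1⟩ := hx2 (η / 3) (by positivity)
        obtain ⟨m, hm⟩ := exists_nat_one_div_lt hr0
        exact hx.2 (mem_iUnion.2 ⟨m, fun r hr hrm => hr1 r hr (hrm.trans hm)⟩)
      rw [Measure.restrict_apply' H.hF.measurableSet] at h3
      rwa [inter_eq_left.2 (fun x hx => hUF hx.1)] at h3
    have h4 : U ⊆ (U ∩ ⋃ m, A m) ∪ (U \ ⋃ m, A m) := by
      rw [inter_union_sdiff]
    exact measure_mono_null h4 (measure_union_null h1 h2)
  obtain ⟨m, hm⟩ := hUA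
  set F1 : Set (Eu d) := U ∩ closure (A m) with hF1def
  have hF1m : MeasurableSet F1 := hUm.inter isClosed_closure.measurableSet
  have hF1pos : μ F1 ≠ 0 := fun h =>
    hm (measure_mono_null (inter_subset_inter_right _ subset_closure) h)
  have hF1F : F1 ⊆ F := fun x hx => hUF hx.1
  set δ : ℝ := 1 / (m + 1 : ℝ) / 2 with hδ
  have hδpos : 0 < δ := by positivity
  have hη1 : η / 3 ≤ 1 := by nlinarith
  have hflat1 : ∀ x ∈ F1, ∀ r, 0 < r → r < δ → BFlat n F x r η := by
    intro x hx r hr hrδ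
    have := flat_closure F (A m) (η := η / 3) (by positivity) hη1
      (fun x hx r hr hr2 => hx r hr hr2) x hx.2 r hr hrδ
    rwa [show 3 * (η / 3) = η by ring] at this
  -- density point
  obtain ⟨x0, hx0, hdens⟩ := exists_density_scale μ F1 hF1m hF1pos
  set ζ : ℝ := min (T * om' / (C * 2 ^ n)) (T / (10 ^ n / c * (C * 2 ^ n))) with hζ
  have hζpos : 0 < ζ := by positivity
  obtain ⟨δ2, hδ2, hδ3⟩ := hdens ζ hζpos
  set r1' : ℝ := min r1 δ with hr1'
  have hr1'pos : 0 < r1' := lt_min H.hr1 hδpos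
  have H' := H.mono hr1'pos (min_le_left _ _)
  set r0 : ℝ := min r1' δ2 / 4 with hr0def
  have hr0 : 0 < r0 := by positivity
  have hr01 : r0 < r1' := by
    have : min r1' δ2 ≤ r1' := min_le_left _ _
    linarith
  have hr02 : 2 * r0 < δ2 := by
    have : min r1' δ2 ≤ δ2 := min_le_right _ _
    linarith
  have harea := area_estimate μ F F1 H' hF1F hF1m hη hM2 hηM
    (fun x hx r hr hr2 => hflat1 x hx r hr (hr2.trans_le (min_le_right _ _)))
    (fun h hh => measure_mono_null (inter_subset_inter_left _ inter_subset_left) (hbest h hh))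
    x0 hx0 hr0 hr01
  have hW : μ (closedBall x0 (2 * r0)) ≤ ENNReal.ofReal (C * 2 ^ n * r0 ^ n) := by
    refine (hup x0 (2 * r0) (by positivity)).trans (le_of_eq ?_)
    rw [mul_pow, mul_assoc]
  have hWF : μ (closedBall x0 (2 * r0) \ F1) ≤ ENNReal.ofReal (ζ * (C * 2 ^ n * r0 ^ n)) := by
    refine (hδ3 _ (by positivity) hr02).trans ?_
    rw [ENNReal.ofReal_mul hζpos.le]
    gcongr
  have hfin : ENNReal.ofReal ((r0 / 2) ^ n) * om n ≤
      ENNReal.ofReal (4 * (T * r0 ^ n * om')) := by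
    refine harea.trans ?_
    rw [homeq]
    have e1 : ENNReal.ofReal (30 * η * 2 ^ n / c) * ENNReal.ofReal om' *
        μ (closedBall x0 (2 * r0)) ≤ ENNReal.ofReal (T * r0 ^ n * om') := by
      calc _ ≤ ENNReal.ofReal (30 * η * 2 ^ n / c) * ENNReal.ofReal om' *
            ENNReal.ofReal (C * 2 ^ n * r0 ^ n) := by gcongr
        _ = ENNReal.ofReal ((30 * η * 2 ^ n / c * (C * 2 ^ n)) * (r0 ^ n * om')) := by
            rw [← ENNReal.ofReal_mul (by positivity), ← ENNReal.ofReal_mul (by positivity)]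
            congr 1; ring
        _ ≤ ENNReal.ofReal (T * (r0 ^ n * om')) := by gcongr
        _ = _ := by congr 1; ring
    have e2 : μ (closedBall x0 (2 * r0) \ F1) ≤ ENNReal.ofReal (T * r0 ^ n * om') := by
      refine hWF.trans (ENNReal.ofReal_le_ofReal ?_)
      calc ζ * (C * 2 ^ n * r0 ^ n) ≤ (T * om' / (C * 2 ^ n)) * (C * 2 ^ n * r0 ^ n) := by
            gcongr; exact min_le_left _ _
        _ = T * r0 ^ n * om' := by field_simp
    have e3 : ENNReal.ofReal (10 ^ n / c) * ENNReal.ofReal om' *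
        μ (closedBall x0 (2 * r0) \ F1) ≤ ENNReal.ofReal (T * r0 ^ n * om') := by
      calc _ ≤ ENNReal.ofReal (10 ^ n / c) * ENNReal.ofReal om' *
            ENNReal.ofReal (ζ * (C * 2 ^ n * r0 ^ n)) := by gcongr
        _ = ENNReal.ofReal (ζ * ((10 ^ n / c * (C * 2 ^ n)) * (r0 ^ n * om'))) := by
            rw [← ENNReal.ofReal_mul (by positivity), ← ENNReal.ofReal_mul (by positivity)]
            congr 1; ring
        _ ≤ ENNReal.ofReal ((T / (10 ^ n / c * (C * 2 ^ n))) *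
            ((10 ^ n / c * (C * 2 ^ n)) * (r0 ^ n * om'))) := by
            gcongr; exact min_le_right _ _
        _ = _ := by congr 1; field_simp
    have e4 : ENNReal.ofReal (20 * 14 ^ n / (c * M)) * ENNReal.ofReal om' *
        μ (closedBall x0 (2 * r0)) ≤ ENNReal.ofReal (T * r0 ^ n * om') := by
      calc _ ≤ ENNReal.ofReal (20 * 14 ^ n / (c * M)) * ENNReal.ofReal om' *
            ENNReal.ofReal (C * 2 ^ n * r0 ^ n) := by gcongr
        _ = ENNReal.ofReal ((20 * 14 ^ n / (c * M) * (C * 2 ^ n)) * (r0 ^ n * om')) := by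
            rw [← ENNReal.ofReal_mul (by positivity), ← ENNReal.ofReal_mul (by positivity)]
            congr 1; ring
        _ ≤ ENNReal.ofReal (T * (r0 ^ n * om')) := by gcongr
        _ = _ := by congr 1; ring
    calc _ ≤ ENNReal.ofReal (T * r0 ^ n * om') + ENNReal.ofReal (T * r0 ^ n * om') +
          ENNReal.ofReal (T * r0 ^ n * om') + ENNReal.ofReal (T * r0 ^ n * om') := by gcongr
      _ = ENNReal.ofReal (4 * (T * r0 ^ n * om')) := by
          rw [← ENNReal.ofReal_add (by positivity) (by positivity),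
            ← ENNReal.ofReal_add (by positivity) (by positivity),
            ← ENNReal.ofReal_add (by positivity) (by positivity)]
          congr 1; ring
  rw [homeq, ← ENNReal.ofReal_mul (by positivity), ENNReal.ofReal_le_ofReal_iff (by positivity)]
    at hfin
  have h5 : (r0 / 2) ^ n * om' = 5 * (T * r0 ^ n * om') := by
    rw [hT, div_pow, one_div, inv_pow]; field_simp
  rw [h5] at hfin
  have h6 : 0 < T * r0 ^ n * om' := by positivity
  linarith

end H54Crit
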