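import Pool.Agent.H54Crit.Basic

/-!
# Projections, images of null sets, Lipschitz inverses
-/

open MeasureTheory Metric Set Filter
open scoped ENNReal NNReal Topology

namespace H54Crit

/-- the adjoint of a linear isometry -/
noncomputable def adj {n d : ℕ} (L : Eu n →ₗᵢ[ℝ] Eu d) : Eu d →L[ℝ] Eu n :=
  ContinuousLinearMap.adjoint L.toContinuousLinearMap

lemma adj_inner {n d : ℕ} (L : Eu n →ₗᵢ[ℝ] Eu d) (v : Eu d) (a : Eu n) :
    inner ℝ (adj L v) a = inner ℝ v (L a) := by
  simp [adj, ContinuousLinearMap.adjoint_inner_left]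

lemma adj_apply {n d : ℕ} (L : Eu n →ₗᵢ[ℝ] Eu d) (a : Eu n) : adj L (L a) = a := by
  refine ext_inner_right ℝ (fun b => ?_)
  rw [adj_inner, L.inner_map_map]

lemma norm_adj_le {n d : ℕ} (L : Eu n →ₗᵢ[ℝ] Eu d) (v : Eu d) : ‖adj L v‖ ≤ ‖v‖ := by
  have h1 : ‖adj L v‖ ^ 2 = inner ℝ v (L (adj L v)) := by
    rw [← adj_inner, real_inner_self_eq_norm_sq]
  have h2 := real_inner_le_norm v (L (adj L v))
  rw [L.norm_map, ← h1] at h2
  rcases (norm_nonneg (adj L v)).eq_or_lt with h | h
  · rw [← h]; exact norm_nonneg _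
  · nlinarith

lemma lip_adj {n d : ℕ} (L : Eu n →ₗᵢ[ℝ] Eu d) : LipschitzWith 1 (adj L) := by
  refine LipschitzWith.of_dist_le_mul (fun x y => ?_)
  rw [dist_eq_norm, ← map_sub, dist_eq_norm]
  simpa using norm_adj_le L (x - y)

/-- Lebesgue measure is at most Hausdorff measure. -/
lemma volume_le_hausdorff {n : ℕ} (A : Set (Eu n)) : volume A ≤ μH[(n : ℝ)] A := by
  have h1 : volume A = volume (WithLp.ofLp '' A : Set (Fin n → ℝ)) := by
    have hm := (EuclideanSpace.volume_preserving_symm_measurableEquiv_toLp (Fin n))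
    have h2 : (WithLp.ofLp '' A : Set (Fin n → ℝ)) =
        (MeasurableEquiv.toLp 2 (Fin n → ℝ)) ⁻¹' A := by
      ext b
      constructor
      · rintro ⟨a, ha, rfl⟩
        simpa using ha
      · intro hb
        exact ⟨_, hb, by simp⟩
    rw [h2]
    have hm' := (EuclideanSpace.volume_preserving_symm_measurableEquiv_toLp (Fin n)).symm
    exact (hm'.measure_preimage_equiv A).symm
  rw [h1, ← hausdorffMeasure_pi_real]
  simp only [Fintype.card_fin]
  have hl : LipschitzWith 1 (WithLp.ofLp : Eu n → (Fin n → ℝ)) :=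
    PiLp.lipschitzWith_ofLp 2 (fun _ : Fin n => ℝ)
  have := hl.hausdorffMeasure_image_le (d := (n : ℝ)) (by positivity) A
  simpa using this

lemma volume_image_adj_le {n d : ℕ} (L : Eu n →ₗᵢ[ℝ] Eu d) (A : Set (Eu d)) :
    volume (adj L '' A) ≤ μH[(n : ℝ)] A := by
  refine (volume_le_hausdorff _).trans ?_
  have := (lip_adj L).hausdorffMeasure_image_le (d := (n : ℝ)) (by positivity) A
  simpa using this

/-- A set on which a linear map is bounded below is contained in a Lipschitz image. -/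
lemma lip_image_of_lower {n d : ℕ} (P : Eu d →L[ℝ] Eu n) {σ : ℝ} (hσ : 0 < σ) (A : Set (Eu d))
    (hA : ∀ x ∈ A, ∀ y ∈ A, σ * dist x y ≤ ‖P (x - y)‖) :
    ∃ g : Eu n → Eu d, (∃ K : ℝ≥0, LipschitzWith K g) ∧ A ⊆ range g := by
  classical
  rcases A.eq_empty_or_nonempty with rfl | ⟨x0, hx0⟩
  · exact ⟨fun _ => 0, ⟨0, LipschitzWith.const 0⟩, by simp⟩
  let f : Eu n → Eu d := fun b => if h : ∃ x ∈ A, P x = b then h.choose else x0
  have hf : ∀ x ∈ A, f (P x) = x := by
    intro x hx
    have h : ∃ x' ∈ A, P x' = P x := ⟨x, hx, rfl⟩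
    have h1 : f (P x) = h.choose := by simp only [f, dif_pos h]
    rw [h1]
    obtain ⟨h2, h3⟩ := h.choose_spec
    have h4 := hA _ h2 _ hx
    rw [map_sub, h3, sub_self, norm_zero] at h4
    have h5 : dist h.choose x ≤ 0 := by
      by_contra hcon
      push Not at hcon
      have := mul_pos hσ hcon
      linarith
    exact dist_le_zero.1 h5
  have hlip : LipschitzOnWith (Real.toNNReal (1 / σ)) f (P '' A) := by
    refine LipschitzOnWith.of_dist_le_mul ?_
    rintro _ ⟨x, hx, rfl⟩ _ ⟨y, hy, rfl⟩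
    rw [hf x hx, hf y hy, Real.coe_toNNReal _ (by positivity)]
    have := hA x hx y hy
    rw [map_sub, ← dist_eq_norm] at this
    rw [one_div, inv_mul_eq_div, le_div_iff₀ hσ]
    linarith
  -- extend coordinatewise
  have hc : ∀ i : Fin d, ∃ g : Eu n → ℝ, (∃ K : ℝ≥0, LipschitzWith K g) ∧
      EqOn (fun b => f b i) g (P '' A) := by
    intro i
    have h1 : LipschitzOnWith (1 * Real.toNNReal (1 / σ)) (fun b => f b i) (P '' A) := by
      have h2 : LipschitzWith 1 (fun v : Eu d => v i) := by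
        refine LipschitzWith.of_dist_le_mul (fun x y => ?_)
        rw [NNReal.coe_one, one_mul]
        exact PiLp.dist_apply_le x y i
      exact h2.comp_lipschitzOnWith hlip
    obtain ⟨g, hg, hg'⟩ := h1.extend_real
    exact ⟨g, ⟨_, hg⟩, hg'⟩
  choose g hg hg' using hc
  refine ⟨fun b => WithLp.toLp 2 (fun i => g i b), ?_, ?_⟩
  · choose K hK using hg
    refine ⟨Real.toNNReal (∑ i, (K i : ℝ)), LipschitzWith.of_dist_le_mul (fun x y => ?_)⟩
    rw [Real.coe_toNNReal _ (by positivity), EuclideanSpace.dist_eq]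
    refine Real.sqrt_le_iff.2 ⟨by positivity, ?_⟩
    have h1 : ∀ i : Fin d, dist (g i x) (g i y) ≤ K i * dist x y := fun i => (hK i).dist_le_mul x y
    calc ∑ i : Fin d, dist (g i x) (g i y) ^ 2 ≤ ∑ i : Fin d, ((K i : ℝ) * dist x y) ^ 2 := by
          gcongr with i _
          exact h1 i
      _ ≤ (∑ i : Fin d, (K i : ℝ) * dist x y) ^ 2 := by
          rw [sq (∑ i : Fin d, (K i : ℝ) * dist x y), Finset.sum_mul]
          refine Finset.sum_le_sum (fun i _ => ?_)
          rw [sq]
          refine mul_le_mul_of_nonneg_left ?_ (by positivity)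
          exact Finset.single_le_sum (f := fun i => (K i : ℝ) * dist x y)
            (fun j _ => by positivity) (Finset.mem_univ i)
      _ = ((∑ i, (K i : ℝ)) * dist x y) ^ 2 := by rw [Finset.sum_mul]
  · intro x hx
    refine ⟨P x, ?_⟩
    ext i
    have h1 : (f (P x)) i = g i (P x) := hg' i (mem_image_of_mem P hx)
    rw [hf x hx] at h1
    exact h1.symm

end H54Crit
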